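import Pool.Agent.H88.NW.Win2
import Pool.Agent.H88.NW.Primes
import Pool.Agent.H88.NW.Paley
import Pool.Agent.H88.NW.Gauss
import Pool.Agent.H88.NW.Lev

/-!
MP_28b514: the size of incoherent systems in the initial window of `n μ²`.

`NN 𝕜 n μ` is the maximal number of unit vectors of `𝕜^n` with mutual inner products of modulus at
most `μ`.
-/

set_option autoImplicit false

namespace Pool.Agent.Results.MP_28b514_an.InitialWindow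

open Pool.Agent.H88.NW

theorem result (γ : ℝ) (hγ : 0 < γ) : ∃ η : ℝ, 0 < η ∧ ∀ (A : ℕ) (ε : ℝ), 0 < ε → ∃ n0 : ℕ,
    ∀ n : ℕ, n0 ≤ n → ∀ μ : ℝ, 0 < μ →
    (n * μ ^ 2 ≤ 1 - 1 / Real.log n ^ A →
      1 / 8 * (n / (1 - n * μ ^ 2)) ≤ NN ℝ n μ ∧
      (1 - η ≤ n * μ ^ 2 → (1 - γ) * (n / (1 - n * μ ^ 2)) ≤ NN ℝ n μ) ∧
      NN ℝ n μ ≤ NN ℂ n μ ∧ (NN ℂ n μ : ℝ) ≤ n / (1 - n * μ ^ 2)) ∧
    (1 + 1 / Real.log n ^ A ≤ n * μ ^ 2 → n * μ ^ 2 ≤ 2 - ε →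
      (1 - γ) * (n : ℝ) ^ 2 ≤ NN ℂ n μ ∧
      (NN ℂ n μ : ℝ) ≤ (1 + γ) * (n ^ 2 / (2 - n * μ ^ 2))) ∧
    (2 + 1 / Real.log n ^ A ≤ n * μ ^ 2 → n * μ ^ 2 ≤ 3 - ε →
      (1 - γ) * ((n : ℝ) ^ 2 / 2) ≤ NN ℝ n μ ∧
      (NN ℝ n μ : ℝ) ≤ (1 + γ) * (n ^ 2 / (3 - n * μ ^ 2))) := by
  refine main_of (fun A => ?_) (fun A => ?_) paley gauss
    (fun _ _ _ h h1 h2 => lev_complex h h1 h2) (fun _ _ _ h h1 h2 => lev_real h h1 h2) γ hγ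
  · obtain ⟨x0, hx0⟩ := prime_short A
    exact ⟨x0, fun x hx => by
      obtain ⟨p, h1, h2, h3⟩ := hx0 x hx
      exact ⟨p, h1, trivial, h2, h3⟩⟩
  · obtain ⟨x0, hx0⟩ := prime_short3 A
    exact ⟨x0, fun x hx => by
      obtain ⟨p, h1, h2, h3, h4⟩ := hx0 x hx
      exact ⟨p, h1, h2, h3, h4⟩⟩

end Pool.Agent.Results.MP_28b514_an.InitialWindow
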