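import Pool.Agent.H14.KPoint.Main

/-!
# MP_28b514_an: the `k`-point semidefinite bounds for incoherent systems

`𝕜` is `ℝ` or `ℂ`; the points are the unit vectors of `𝕜 ^ n`; `Incoherent 𝕜 n μ x y` says that
`‖⟨x, y⟩‖ ≤ μ`; `IsCode (Incoherent 𝕜 n μ) D` says that the finite set `D` of unit vectors has
coherence at most `μ`.

* `Moments ok k y`: the pseudo-probabilities `y` form a feasible point of the `k`-point moment
  relaxation.
* `Certificate ok k B`: a dual certificate with value `B` for the `k`-point bound.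

For `n μ² ≥ 64`, `μ ≤ 1/2` and `2 ≤ k ≤ exp (n μ² / 8)` the relaxation has a feasible point of
value at least `exp ((n μ² / 16) ln (2 / μ))`, and every certificate has at least that value.
-/

namespace Pool.Agent.Results.MP_28b514_an.KPointBarrier

open Pool.Agent.H14.KPoint

theorem result (𝕜 : Type) [RCLike 𝕜] (n k : ℕ) (hk : 2 ≤ k) (μ : ℝ) :
    -- the relaxation is sound: a code `D` is a feasible point of value `D.card`
    (∀ D : Finset (Metric.sphere (0 : EuclideanSpace 𝕜 (Fin n)) 1),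
      IsCode (Incoherent 𝕜 n μ) D →
        Moments (Incoherent 𝕜 n μ) k (fun S => if S ⊆ D then 1 else 0) ∧
        ∑ x ∈ D, (if {x} ⊆ D then (1 : ℝ) else 0) = D.card) ∧
    -- certificates are sound: they bound the size of every code
    (∀ B : ℝ, Nonempty (Certificate (Incoherent 𝕜 n μ) k B) →
      ∀ D : Finset (Metric.sphere (0 : EuclideanSpace 𝕜 (Fin n)) 1),
        IsCode (Incoherent 𝕜 n μ) D → (D.card : ℝ) ≤ B) ∧
    -- the barrier
    (0 < μ → μ ≤ 1 / 2 → 64 ≤ n * μ ^ 2 → (k : ℝ) ≤ Real.exp (n * μ ^ 2 / 8) →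
      (∃ (y : Finset (Metric.sphere (0 : EuclideanSpace 𝕜 (Fin n)) 1) → ℝ)
          (W : Finset (Metric.sphere (0 : EuclideanSpace 𝕜 (Fin n)) 1)),
        Moments (Incoherent 𝕜 n μ) k y ∧ (∀ S, ¬ S ⊆ W → y S = 0) ∧
        Real.exp (n * μ ^ 2 / 16 * Real.log (2 / μ)) ≤ ∑ x ∈ W, y {x}) ∧
      ∀ B : ℝ, Nonempty (Certificate (Incoherent 𝕜 n μ) k B) →
        Real.exp (n * μ ^ 2 / 16 * Real.log (2 / μ)) ≤ B) := by
  refine ⟨fun D hD => ⟨moments_of_code k D hD, ?_⟩, fun B ⟨C⟩ D hD => C.sound hk D hD, ?_⟩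
  · rw [Finset.sum_congr rfl (g := fun _ => (1 : ℝ))]
    · simp
    · intro x hx
      rw [if_pos (Finset.singleton_subset_iff.2 hx)]
  · intro h1 h2 h3 h4
    obtain ⟨y, W, hy, hW, hv, hB⟩ := sphere_bound 𝕜 n μ h1 h2 h3 k hk h4
    exact ⟨⟨y, W, hy, hW, hv⟩, fun B ⟨C⟩ => hB B C⟩

end Pool.Agent.Results.MP_28b514_an.KPointBarrier
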