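import Pool.Agent.H68.TF.Cplx

/-!
MP_28b514: the exact maximal size of an incoherent system in an infinite family over `ℂ`:
`2 n (n + 1)` lines of `ℂ^n`, `n = (3^m - 1) / 2` (the Witting polytope for `m = 2`).
-/

set_option autoImplicit false

namespace Pool.Agent.Results.MP_28b514_an.TightComplex

open Pool.Agent.H88.NW Pool.Agent.H68.TF

theorem result (m n : ℕ) (hm : 2 ≤ m) (hn : 2 * n + 1 = 3 ^ m) :
    NN ℂ n (Real.sqrt (3 / (2 * n + 1))) = 2 * n * (n + 1) :=
  complex_family m hm n hn

end Pool.Agent.Results.MP_28b514_an.TightComplex
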