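import Pool.Agent.H68.TF.Real

/-!
MP_28b514: the exact maximal size of an incoherent system in an infinite family over `ℝ`:
`n (n + 2)` lines of `ℝ^n`, `n = 2^m - 1`, `m` odd (the root system `E₇` for `m = 3`).
-/

set_option autoImplicit false

namespace Pool.Agent.Results.MP_28b514_an.TightReal

open Pool.Agent.H88.NW Pool.Agent.H68.TF

theorem result (m n : ℕ) (hm : Odd m) (hm3 : 3 ≤ m) (hn : n + 1 = 2 ^ m) :
    NN ℝ n (Real.sqrt (2 / (n + 1))) = n * (n + 2) :=
  real_family m hm hm3 n hn

end Pool.Agent.Results.MP_28b514_an.TightReal
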